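import Pool.Agent.N869.GK.L.Stm

/-!
# GK/INVU (helper128): the moments determine the law, fixed parity
-/

set_option autoImplicit false

open scoped Classical

namespace Pool.Agent.N128.GK

open Finset
open Pool.Agent.N869.GK

/-! ### One variable -/

/-- the product of the differences -/
noncomputable def Qp (j0 N : ℕ) : ℝ := ∏ i ∈ (range N).erase j0, |(4 : ℝ) ^ j0 - 4 ^ i|

theorem four_ne {i j : ℕ} (h : i ≠ j) : (4 : ℝ) ^ j - 4 ^ i ≠ 0 := by
  intro hc
  have h1 : (4 : ℝ) ^ j = 4 ^ i := sub_eq_zero.1 hc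
  exact h ((pow_right_injective₀ (by norm_num : (0 : ℝ) < 4) (by norm_num)) h1).symm

theorem Qp_pos (j0 N : ℕ) : 0 < Qp j0 N := by
  unfold Qp
  apply Finset.prod_pos
  intro i hi
  exact abs_pos.2 (four_ne (Finset.mem_erase.1 hi).1)

theorem Qp_succ {j0 N : ℕ} (h : j0 < N) : Qp j0 (N + 1) = Qp j0 N * (4 ^ N - 4 ^ j0) := by
  unfold Qp
  have h1 : (range (N + 1)).erase j0 = insert N ((range N).erase j0) := by
    ext i
    simp only [mem_erase, mem_range, mem_insert]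
    omega
  rw [h1, Finset.prod_insert (by simp), mul_comm]
  congr 1
  rw [abs_sub_comm, abs_of_nonneg]
  have : (4 : ℝ) ^ j0 ≤ 4 ^ N := pow_le_pow_right₀ (by norm_num) h.le
  linarith

theorem mom_pos (m : ℕ) : 0 < mom m := by
  unfold mom
  exact Finset.prod_pos fun i _ => by positivity

theorem mom_succ (m : ℕ) : mom (m + 1) = mom m * (1 + 2 ^ (m + 1)) := by
  unfold mom
  rw [Finset.prod_range_succ]

theorem ratio {j0 N : ℕ} (h : j0 < N) (h3 : 3 ≤ N) :
    mom (N + 1) / Qp j0 (N + 1) ≤ mom N / Qp j0 N * (1 / 2) := by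
  have h1 : (4 : ℝ) ^ j0 * 4 ≤ 4 ^ N := by
    rw [← pow_succ]
    exact pow_le_pow_right₀ (by norm_num) h
  have h2 : (8 : ℝ) ≤ 2 ^ N := by
    calc (8 : ℝ) = 2 ^ 3 := by norm_num
      _ ≤ 2 ^ N := pow_le_pow_right₀ (by norm_num) h3
  have h4 : (4 : ℝ) ^ N = 2 ^ N * 2 ^ N := by
    rw [← mul_pow]; norm_num
  have h5 : 2 * (1 + (2 : ℝ) ^ (N + 1)) ≤ 4 ^ N - 4 ^ j0 := by
    rw [pow_succ]
    nlinarith
  have h6 : 0 < (4 : ℝ) ^ N - 4 ^ j0 := by
    have : (0 : ℝ) < 2 ^ (N + 1) := by positivity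
    linarith
  rw [mom_succ, Qp_succ h, mul_div_mul_comm]
  have h7 := Qp_pos j0 N
  have h8 := mom_pos N
  apply mul_le_mul_of_nonneg_left _ (by positivity)
  rw [div_le_iff₀ h6]
  linarith

theorem exists_N (j0 : ℕ) {η : ℝ} (hη : 0 < η) : ∃ N : ℕ, j0 < N ∧ mom N / Qp j0 N ≤ η := by
  set N0 := max (j0 + 1) 3 with hN0
  have h1 : ∀ n : ℕ, mom (N0 + n) / Qp j0 (N0 + n) ≤ mom N0 / Qp j0 N0 * (1 / 2) ^ n := by
    intro n
    induction n with
    | zero => simp
    | succ n ih =>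
      have h2 := ratio (j0 := j0) (N := N0 + n) (by omega) (by omega)
      have h3 : mom (N0 + n) / Qp j0 (N0 + n) * (1 / 2) ≤
          mom N0 / Qp j0 N0 * (1 / 2) ^ n * (1 / 2) :=
        mul_le_mul_of_nonneg_right ih (by norm_num)
      rw [pow_succ, ← mul_assoc]
      exact h2.trans h3
  have hc : 0 < mom N0 / Qp j0 N0 := div_pos (mom_pos _) (Qp_pos _ _)
  obtain ⟨n, hn⟩ := exists_pow_lt_of_lt_one (div_pos hη hc) (by norm_num : (1 / 2 : ℝ) < 1)
  refine ⟨N0 + n, by omega, (h1 n).trans ?_⟩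
  rw [lt_div_iff₀ hc] at hn
  linarith

/-- the interpolation polynomial -/
noncomputable def Pol (e' j0 N : ℕ) : Polynomial ℝ :=
  ∏ i ∈ (range N).erase j0, (Polynomial.C (1 / ((4 : ℝ) ^ j0 - 4 ^ i)) *
    (Polynomial.C (1 / (2 : ℝ) ^ e') * Polynomial.X - Polynomial.C ((4 : ℝ) ^ i)))

theorem Pol_deg (e' j0 N : ℕ) : (Pol e' j0 N).natDegree < N + 1 := by
  unfold Pol
  have h1 : (∏ i ∈ (range N).erase j0, (Polynomial.C (1 / ((4 : ℝ) ^ j0 - 4 ^ i)) *
    (Polynomial.C (1 / (2 : ℝ) ^ e') * Polynomial.X - Polynomial.C ((4 : ℝ) ^ i)))).natDegree ≤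
      ∑ i ∈ (range N).erase j0, 1 := by
    refine (Polynomial.natDegree_prod_le _ _).trans ?_
    apply Finset.sum_le_sum
    intro i _
    compute_degree
  have h2 : ∑ i ∈ (range N).erase j0, 1 ≤ N := by
    rw [Finset.sum_const, smul_eq_mul, mul_one]
    calc ((range N).erase j0).card ≤ (range N).card := Finset.card_erase_le
      _ = N := Finset.card_range N
  omega

theorem Pol_eval (e' j0 N j : ℕ) : (Pol e' j0 N).eval (2 ^ (2 * j + e')) =
    ∏ i ∈ (range N).erase j0, (((4 : ℝ) ^ j - 4 ^ i) / (4 ^ j0 - 4 ^ i)) := by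
  unfold Pol
  rw [Polynomial.eval_prod]
  refine Finset.prod_congr rfl fun i _ => ?_
  simp only [Polynomial.eval_mul, Polynomial.eval_sub, Polynomial.eval_C, Polynomial.eval_X]
  have h1 : (1 / (2 : ℝ) ^ e') * 2 ^ (2 * j + e') = 4 ^ j := by
    rw [pow_add, pow_mul]
    norm_num
    field_simp
  rw [h1]
  ring

/-- one variable -/
theorem one_var (e' ρ : ℕ) (hρ : ρ % 2 = e') {η : ℝ} (hη : 0 < η) :
    ∃ (N : ℕ) (θ : ℝ) (c : ℕ → ℝ), 1 ≤ N ∧ 0 < θ ∧ θ * mom N ≤ η ∧
      ∀ k : ℕ, k % 2 = e' → |(if k = ρ then (1 : ℝ) else 0) -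
        ∑ i ∈ range (N + 1), c i * (2 ^ k) ^ i| ≤ θ * (2 ^ k) ^ N := by
  set j0 := ρ / 2 with hj0
  have hρ' : ρ = 2 * j0 + e' := by omega
  obtain ⟨N, hN1, hN2⟩ := exists_N j0 hη
  refine ⟨N, 1 / Qp j0 N, (Pol e' j0 N).coeff, by omega, one_div_pos.2 (Qp_pos _ _), ?_, ?_⟩
  · rw [one_div_mul_eq_div]
    exact hN2
  · intro k hk
    set j := k / 2 with hj
    have hk' : k = 2 * j + e' := by omega
    have hev : ∑ i ∈ range (N + 1), (Pol e' j0 N).coeff i * ((2 : ℝ) ^ k) ^ i =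
        (Pol e' j0 N).eval (2 ^ k) :=
      (Polynomial.eval_eq_sum_range' (Pol_deg e' j0 N) _).symm
    rw [hev, hk', Pol_eval]
    have hθ := Qp_pos j0 N
    by_cases hjN : j < N
    · have h1 : ∏ i ∈ (range N).erase j0, (((4 : ℝ) ^ j - 4 ^ i) / (4 ^ j0 - 4 ^ i)) =
          if 2 * j + e' = ρ then 1 else 0 := by
        by_cases h : j = j0
        · rw [if_pos (by omega), h]
          apply Finset.prod_eq_one
          intro i hi
          exact div_self (four_ne (Finset.mem_erase.1 hi).1)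
        · rw [if_neg (by omega)]
          apply Finset.prod_eq_zero (i := j)
          · simp only [mem_erase, mem_range]
            exact ⟨h, hjN⟩
          · simp
      rw [h1, sub_self, abs_zero]
      positivity
    · push Not at hjN
      rw [if_neg (by omega), zero_sub, abs_neg, Finset.abs_prod]
      have h1 : ∏ i ∈ (range N).erase j0, |((4 : ℝ) ^ j - 4 ^ i) / (4 ^ j0 - 4 ^ i)| ≤
          (∏ i ∈ (range N).erase j0, (4 : ℝ) ^ j) / Qp j0 N := by
        unfold Qp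
        rw [← Finset.prod_div_distrib]
        apply Finset.prod_le_prod
        · intro i _
          exact abs_nonneg _
        · intro i hi
          rw [abs_div]
          apply div_le_div_of_nonneg_right _ (abs_nonneg _)
          have h2 : (4 : ℝ) ^ i ≤ 4 ^ j := by
            apply pow_le_pow_right₀ (by norm_num)
            have := Finset.mem_range.1 (Finset.mem_erase.1 hi).2
            omega
          rw [abs_of_nonneg (by linarith)]
          have : (0 : ℝ) < 4 ^ i := by positivity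
          linarith
      refine h1.trans ?_
      rw [Finset.prod_const, one_div, inv_mul_eq_div]
      apply div_le_div_of_nonneg_right _ hθ.le
      have h3 : (1 : ℝ) ≤ 4 ^ j := one_le_pow₀ (by norm_num)
      have h4 : (4 : ℝ) ^ j ≤ 2 ^ (2 * j + e') := by
        rw [pow_add, pow_mul]
        have : (1 : ℝ) ≤ 2 ^ e' := one_le_pow₀ (by norm_num)
        norm_num
        have h5 : (0 : ℝ) < 4 ^ j := by positivity
        nlinarith
      calc ((4 : ℝ) ^ j) ^ ((range N).erase j0).card ≤ ((4 : ℝ) ^ j) ^ N := by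
            apply pow_le_pow_right₀ h3
            calc ((range N).erase j0).card ≤ (range N).card := Finset.card_erase_le
              _ = N := Finset.card_range N
        _ ≤ (2 ^ (2 * j + e')) ^ N := pow_le_pow_left₀ (by positivity) h4 N

/-! ### Several variables -/

theorem prod_diff {I : Type} (s : Finset I) (f p D : I → ℝ) (hf : ∀ a, |f a| ≤ 1)
    (hd : ∀ a, |f a - p a| ≤ D a) :
    |∏ a ∈ s, f a - ∏ a ∈ s, p a| ≤ ∏ a ∈ s, (1 + D a) - 1 ∧ |∏ a ∈ s, f a| ≤ 1 := by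
  induction s using Finset.induction_on with
  | empty => simp
  | insert a s ha ih =>
    obtain ⟨h1, h2⟩ := ih
    have hD : 0 ≤ D a := (abs_nonneg _).trans (hd a)
    rw [Finset.prod_insert ha, Finset.prod_insert ha, Finset.prod_insert ha]
    have hp : |p a| ≤ 1 + D a := by
      have e : p a = f a - (f a - p a) := by ring
      rw [e]
      exact (abs_sub _ _).trans (add_le_add (hf a) (hd a))
    constructor
    · have e : f a * ∏ a ∈ s, f a - p a * ∏ a ∈ s, p a =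
          p a * (∏ a ∈ s, f a - ∏ a ∈ s, p a) + (f a - p a) * ∏ a ∈ s, f a := by ring
      rw [e]
      refine (abs_add_le _ _).trans ?_
      rw [abs_mul, abs_mul]
      have h3 : |p a| * |∏ a ∈ s, f a - ∏ a ∈ s, p a| ≤ (1 + D a) * (∏ a ∈ s, (1 + D a) - 1) :=
        mul_le_mul hp h1 (abs_nonneg _) (by linarith)
      have h4 : |f a - p a| * |∏ a ∈ s, f a| ≤ D a * 1 :=
        mul_le_mul (hd a) h2 (abs_nonneg _) hD
      linarith
    · rw [abs_mul]
      calc |f a| * |∏ a ∈ s, f a| ≤ 1 * 1 := mul_le_mul (hf a) h2 (abs_nonneg _) zero_le_one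
        _ = 1 := one_mul 1

theorem moments {I Ω : Type} [Fintype I] [Fintype Ω] (k : Ω → I → ℕ) (m₀ : ℕ) (δ : ℝ)
    (h : ∀ m : I → ℕ, (∀ a, m a ≤ m₀) →
      |(∑ ω, ∏ a, (2 : ℝ) ^ (m a * k ω a)) / Fintype.card Ω - ∏ a, mom (m a)| ≤ δ)
    (t : Finset ℕ) (ht : ∀ i ∈ t, i ≤ m₀) (c : ℕ → ℝ) :
    |(∑ ω, ∏ a, ∑ i ∈ t, c i * ((2 : ℝ) ^ k ω a) ^ i) / Fintype.card Ω -
      (∑ i ∈ t, c i * mom i) ^ Fintype.card I| ≤ δ * (∑ i ∈ t, |c i|) ^ Fintype.card I := by
  have e1 : ∀ ω, ∏ a, ∑ i ∈ t, c i * ((2 : ℝ) ^ k ω a) ^ i =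
      ∑ m ∈ Fintype.piFinset (fun _ : I => t), (∏ a, c (m a)) * ∏ a, (2 : ℝ) ^ (m a * k ω a) := by
    intro ω
    rw [Finset.prod_univ_sum]
    refine Finset.sum_congr rfl fun m _ => ?_
    rw [← Finset.prod_mul_distrib]
    refine Finset.prod_congr rfl fun a _ => ?_
    rw [← pow_mul, mul_comm (k ω a)]
  have e2 : (∑ i ∈ t, c i * mom i) ^ Fintype.card I =
      ∑ m ∈ Fintype.piFinset (fun _ : I => t), (∏ a, c (m a)) * ∏ a, mom (m a) := by
    rw [← Finset.card_univ, ← Finset.prod_const, Finset.prod_univ_sum]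
    refine Finset.sum_congr rfl fun m _ => ?_
    rw [← Finset.prod_mul_distrib]
  have e3 : (∑ i ∈ t, |c i|) ^ Fintype.card I =
      ∑ m ∈ Fintype.piFinset (fun _ : I => t), |∏ a, c (m a)| := by
    rw [← Finset.card_univ, ← Finset.prod_const, Finset.prod_univ_sum]
    refine Finset.sum_congr rfl fun m _ => ?_
    rw [Finset.abs_prod]
  have e4 : (∑ ω, ∏ a, ∑ i ∈ t, c i * ((2 : ℝ) ^ k ω a) ^ i) / Fintype.card Ω =
      ∑ m ∈ Fintype.piFinset (fun _ : I => t), (∏ a, c (m a)) *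
        ((∑ ω, ∏ a, (2 : ℝ) ^ (m a * k ω a)) / Fintype.card Ω) := by
    rw [Finset.sum_congr rfl fun ω _ => e1 ω, Finset.sum_comm, Finset.sum_div]
    refine Finset.sum_congr rfl fun m _ => ?_
    rw [← Finset.mul_sum, mul_div_assoc]
  rw [e4, e2, e3, ← Finset.sum_sub_distrib, Finset.mul_sum]
  refine (Finset.abs_sum_le_sum_abs _ _).trans (Finset.sum_le_sum fun m hm => ?_)
  rw [← mul_sub, abs_mul, mul_comm δ]
  apply mul_le_mul_of_nonneg_left _ (abs_nonneg _)
  apply h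
  intro a
  exact ht _ (Fintype.mem_piFinset.1 hm a)

/-- the law of one family -/
theorem law {I Ω : Type} [Fintype I] [Fintype Ω] [Nonempty Ω] (k : Ω → I → ℕ) (e ρ N : ℕ)
    (θ η ε δ : ℝ) (c : ℕ → ℝ) (hN : 1 ≤ N) (hθ : 0 < θ) (hη : θ * mom N ≤ η)
    (hc : ∀ k : ℕ, k % 2 = e % 2 → |(if k = ρ then (1 : ℝ) else 0) -
        ∑ i ∈ range (N + 1), c i * (2 ^ k) ^ i| ≤ θ * (2 ^ k) ^ N)
    (hk : ∀ ω a, k ω a % 2 = e % 2)
    (hε : (1 + η) ^ Fintype.card I ≤ 1 + ε / 8)
    (hδ1 : δ * (1 + θ) ^ Fintype.card I ≤ ε / 8)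
    (hδ2 : δ * (∑ i ∈ range (N + 1), |c i|) ^ Fintype.card I ≤ ε / 8)
    (h : ∀ m : I → ℕ, (∀ a, m a ≤ N) →
      |(∑ ω, ∏ a, (2 : ℝ) ^ (m a * k ω a)) / Fintype.card Ω - ∏ a, mom (m a)| ≤ δ) :
    |((univ.filter fun ω : Ω => ∀ a, k ω a = ρ).card : ℝ) / Fintype.card Ω -
      (∑ i ∈ range (N + 1), c i * mom i) ^ Fintype.card I| ≤ 3 * ε / 8 := by
  have hcard : (0 : ℝ) < Fintype.card Ω := by exact_mod_cast Fintype.card_pos
  have h1 := moments k N δ h (range (N + 1)) (fun i hi => by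
    have := Finset.mem_range.1 hi
    omega) c
  have h2 := moments k N δ h {0, N} (fun i hi => by
    rcases Finset.mem_insert.1 hi with h | h
    · omega
    · have := Finset.mem_singleton.1 h
      omega) (fun i => if i = 0 then 1 else θ)
  have hN0 : N ≠ 0 := by omega
  simp only [Finset.sum_pair (Ne.symm hN0), if_true, if_neg hN0, pow_zero, mul_one, abs_one,
    one_mul, abs_of_pos hθ] at h2
  have hm0 : mom 0 = 1 := by simp [mom]
  rw [hm0] at h2
  have h3 : (1 + θ * mom N) ^ Fintype.card I ≤ (1 + η) ^ Fintype.card I := by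
    apply pow_le_pow_left₀ _ (by linarith)
    have := mom_pos N
    positivity
  have h4 : (∑ ω, ∏ a, (1 + θ * ((2 : ℝ) ^ k ω a) ^ N)) / Fintype.card Ω ≤ 1 + ε / 4 := by
    have := (abs_le.1 h2).2
    linarith
  have h5 : ((univ.filter fun ω : Ω => ∀ a, k ω a = ρ).card : ℝ) =
      ∑ ω, ∏ a, (if k ω a = ρ then (1 : ℝ) else 0) := by
    rw [Finset.card_filter]
    push_cast
    refine Finset.sum_congr rfl fun ω _ => ?_
    rw [Finset.prod_ite_zero]
    simp
  have h6 : |((univ.filter fun ω : Ω => ∀ a, k ω a = ρ).card : ℝ) / Fintype.card Ω -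
      (∑ ω, ∏ a, ∑ i ∈ range (N + 1), c i * ((2 : ℝ) ^ k ω a) ^ i) / Fintype.card Ω| ≤ ε / 4 := by
    rw [h5, ← sub_div, ← Finset.sum_sub_distrib, abs_div, abs_of_pos hcard]
    have h7 : |∑ ω, (∏ a, (if k ω a = ρ then (1 : ℝ) else 0) -
        ∏ a, ∑ i ∈ range (N + 1), c i * ((2 : ℝ) ^ k ω a) ^ i)| ≤
        ∑ ω, (∏ a, (1 + θ * ((2 : ℝ) ^ k ω a) ^ N) - 1) := by
      refine (Finset.abs_sum_le_sum_abs _ _).trans (Finset.sum_le_sum fun ω _ => ?_)
      refine (prod_diff univ _ _ _ (fun a => ?_) (fun a => hc _ (hk ω a))).1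
      split_ifs <;> simp
    have h8 : ∑ ω, (∏ a, (1 + θ * ((2 : ℝ) ^ k ω a) ^ N) - 1) =
        ∑ ω, ∏ a, (1 + θ * ((2 : ℝ) ^ k ω a) ^ N) - Fintype.card Ω := by
      rw [Finset.sum_sub_distrib]
      simp
    rw [h8] at h7
    rw [div_le_iff₀ hcard]
    rw [div_le_iff₀ hcard] at h4
    linarith
  have h7 : ((univ.filter fun ω : Ω => ∀ a, k ω a = ρ).card : ℝ) / Fintype.card Ω -
      (∑ i ∈ range (N + 1), c i * mom i) ^ Fintype.card I =
      (((univ.filter fun ω : Ω => ∀ a, k ω a = ρ).card : ℝ) / Fintype.card Ω -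
      (∑ ω, ∏ a, ∑ i ∈ range (N + 1), c i * ((2 : ℝ) ^ k ω a) ^ i) / Fintype.card Ω) +
      ((∑ ω, ∏ a, ∑ i ∈ range (N + 1), c i * ((2 : ℝ) ^ k ω a) ^ i) / Fintype.card Ω -
      (∑ i ∈ range (N + 1), c i * mom i) ^ Fintype.card I) := by ring
  rw [h7]
  refine (abs_add_le _ _).trans ?_
  linarith

/-- GK/INVU -/
theorem t_INVU : S_INVU := by
  intro I _ e ρ ε hε
  by_cases hρ : ρ % 2 = e % 2
  · obtain ⟨η, hη0, hη⟩ : ∃ η : ℝ, 0 < η ∧ (1 + η) ^ Fintype.card I ≤ 1 + ε / 8 := by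
      have hcont : Continuous fun η : ℝ => (1 + η) ^ Fintype.card I :=
        (continuous_const.add continuous_id).pow _
      have h0 : (1 + (0 : ℝ)) ^ Fintype.card I < 1 + ε / 8 := by
        rw [add_zero, one_pow]
        linarith
      have h1 : ∀ᶠ η : ℝ in nhds 0, (1 + η) ^ Fintype.card I < 1 + ε / 8 :=
        (hcont.tendsto 0).eventually (gt_mem_nhds h0)
      obtain ⟨r, hr, h2⟩ := Metric.eventually_nhds_iff.1 h1
      refine ⟨r / 2, by linarith, (h2 ?_).le⟩
      rw [Real.dist_eq, sub_zero, abs_of_pos (by linarith)]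
      linarith
    obtain ⟨N, θ, c, hN, hθ, hθη, hc⟩ := one_var (e % 2) ρ hρ hη0
    set S : ℝ := (∑ i ∈ range (N + 1), |c i|) ^ Fintype.card I with hS
    have hS0 : 0 ≤ S := pow_nonneg (Finset.sum_nonneg fun _ _ => abs_nonneg _) _
    set R : ℝ := (1 + θ) ^ Fintype.card I with hR
    have hR0 : 0 < R := by positivity
    set δ : ℝ := ε / (8 * (R + S + 1)) with hδ
    have hδ0 : 0 < δ := by positivity
    have hδe : δ * (R + S + 1) = ε / 8 := by rw [hδ]; field_simp
    refine ⟨N, δ, hδ0, ?_⟩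
    intro Ω Ω' _ _ _ _ k k' hk hk' hm hm'
    have h1 := law k e ρ N θ η ε δ c hN hθ hθη hc hk hη (by nlinarith) (by nlinarith) hm
    have h2 := law k' e ρ N θ η ε δ c hN hθ hθη hc hk' hη (by nlinarith) (by nlinarith) hm'
    rw [abs_le] at h1 h2 ⊢
    constructor <;> linarith [h1.1, h1.2, h2.1, h2.2]
  · refine ⟨0, 1, one_pos, ?_⟩
    intro Ω Ω' _ _ _ _ k k' hk hk' _ _
    rcases isEmpty_or_nonempty I with hI | hI
    · have h1 : (univ.filter fun ω : Ω => ∀ a, k ω a = ρ) = univ := by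
        ext ω
        simp
      have h2 : (univ.filter fun ω : Ω' => ∀ a, k' ω a = ρ) = univ := by
        ext ω
        simp
      have h3 : (0 : ℝ) < Fintype.card Ω := by exact_mod_cast Fintype.card_pos
      have h4 : (0 : ℝ) < Fintype.card Ω' := by exact_mod_cast Fintype.card_pos
      rw [h1, h2, Finset.card_univ, Finset.card_univ, div_self h3.ne', div_self h4.ne', sub_self,
        abs_zero]
      exact hε.le
    · have h1 : (univ.filter fun ω : Ω => ∀ a, k ω a = ρ) = ∅ := by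
        ext ω
        simp only [mem_filter, mem_univ, true_and, notMem_empty, iff_false]
        intro h
        have h5 := hk ω hI.some
        rw [h hI.some] at h5
        exact hρ h5
      have h2 : (univ.filter fun ω : Ω' => ∀ a, k' ω a = ρ) = ∅ := by
        ext ω
        simp only [mem_filter, mem_univ, true_and, notMem_empty, iff_false]
        intro h
        have h5 := hk' ω hI.some
        rw [h hI.some] at h5
        exact hρ h5
      rw [h1, h2]
      simp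
      exact hε.le

end Pool.Agent.N128.GK
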